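import Pool.Agent.H23.CM4.Targets
import Pool.Agent.H42.FM.GML

/-!
# The row GLN: the lower bound for the Gamma factor
-/

set_option autoImplicit false

open NumberField MeasureTheory Set Filter Complex
open scoped nonZeroDivisors Real
open Pool.Agent.H23.CM4
open Pool.Agent.H31.CN (IsLf)
open Pool.Agent.H61.FM (CC pv Sp lm Nn)
open Pool.Agent.H65.CM4 (gG Kc Sq nm dg)
open Pool.Agent.H25.HK (FI Pri du)

namespace Pool.Agent.H16.CM4

theorem pf_GLN : T_GLN := by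
  intro n
  obtain ⟨C, k, hC, h⟩ := Pool.Agent.H42.FM.pf_GML
  refine ⟨C ^ n, k * n, pow_pos hC n, fun s hs => ?_⟩
  have h1 := h s hs
  have h2 : Real.exp (-(π * |s.im| / 2)) ^ n ≤
      (C * (1 + |s.im|) ^ k * ‖Pool.Agent.H61.FM.gG s‖) ^ n :=
    pow_le_pow_left₀ (Real.exp_pos _).le h1 n
  have h3 : Real.exp (-(π * n * |s.im| / 2)) = Real.exp (-(π * |s.im| / 2)) ^ n := by
    rw [← Real.exp_nat_mul]
    congr 1
    ring
  have h4 : (C * (1 + |s.im|) ^ k * ‖Pool.Agent.H61.FM.gG s‖) ^ n =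
      C ^ n * (1 + |s.im|) ^ (k * n) * ‖gG s ^ n‖ := by
    rw [mul_pow, mul_pow, ← pow_mul, norm_pow]
    rfl
  rw [h3, ← h4]
  exact h2

end Pool.Agent.H16.CM4
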