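import Pool.Agent.H65.CM4.Targets1

/-!
# The row W10: the line of the vector `(1, 0)`
-/

set_option autoImplicit false

open MeasureTheory Set Filter NumberField NumberField.InfinitePlace Pool.Agent.H65.CM4
open scoped Real

namespace Pool.Agent.H16.CM4

variable (k : Type) [Field k] [NumberField k] [IsTotallyReal k]

theorem nn_zero (r : ℝ) (w : V2 k) (h0 : w.2 = 0) (hcard : Fintype.card (Pl k) = dg k) :
    nn r w = Nr (w.1 : k) ^ 2 / r ^ dg k := by
  unfold nn Nr
  have h1 : ∀ v : Pl k, nr r v w = |rv v (w.1 : k)| ^ 2 / r := by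
    intro v
    unfold nr
    rw [h0]
    have h2 : ((0 : 𝓞 k) : k) = 0 := rfl
    rw [h2, map_zero, sq_abs]
    ring
  rw [Finset.prod_congr rfl fun v _ => h1 v, Finset.prod_div_distrib, Finset.prod_pow,
    Finset.prod_const, Finset.card_univ, hcard]

theorem pf_W10 (hEMB : T_EMB k) : T_W10 k := by
  obtain ⟨hcard, _, _, _, _, _, _, _, hspan, hge, _, _⟩ := hEMB
  intro R r w hr hw h0
  have hwne : w ≠ 0 := R.ne w hw
  have h1 : w.1 ≠ 0 := by
    intro h1
    exact hwne (Prod.ext h1 h0)
  refine ⟨?_, ?_, ?_⟩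
  · intro w' hw' h0'
    obtain ⟨u, _, hu⟩ := R.uniq w hwne
    have e1 : w' = u := by
      refine hu w' ⟨hw', ?_⟩
      unfold det
      rw [h0, h0']
      ring
    have e2 : w = u := by
      refine hu w ⟨hw, ?_⟩
      unfold det
      rw [h0]
      ring
    rw [e1, ← e2]
  · rw [nn_zero k r w h0 hcard]
    have h2 := hge w.1 h1
    have h3 : 0 < r ^ dg k := pow_pos hr _
    refine div_le_div_of_nonneg_right ?_ h3.le
    exact one_le_pow₀ h2
  · rw [nn_zero k r w h0 hcard]
    have h3 : 0 < r ^ dg k := pow_pos hr _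
    refine div_le_div_of_nonneg_right ?_ h3.le
    have h4 : Nr (w.1 : k) ≤ (R.C0 : ℝ) := by
      rw [← hspan w.1]
      have h5 := R.cont w hw
      rw [h0, Ideal.span_insert, Ideal.span_singleton_zero, sup_bot_eq] at h5
      unfold nm
      exact_mod_cast h5
    have h5 : 0 ≤ Nr (w.1 : k) := le_trans zero_le_one (hge w.1 h1)
    exact pow_le_pow_left₀ h5 h4 2

end Pool.Agent.H16.CM4
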